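import Pool.Agent.Helper53.PT.GoalsD

/-!
# MP_705522_gt, packet PT-KOK: soundness of the kernel test `kOK`
-/

namespace Pool.Agent.Helper82.PT

open MeasureTheory Set Filter Topology
open Pool.Agent.Helper53.PT

attribute [local irreducible] N.tPL N.tPU N.tSL N.tSU N.tTL N.tTU N.tST N.tU0 N.tU1 N.tU2 N.tP1 N.tI1 N.tI2
  N.tRH N.tRI N.tLU N.tLL N.tF N.tN0 N.tSG N.tW N.fld N.fld6 N.kPos N.kNeg N.kTail

theorem frc_eq {α : Type} (n : ℕ) (f : ℕ → α) : N.frc n f = f n := by
  cases n <;> rfl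

theorem cond_ble {α : Type} (a b : ℕ) (x y : α) :
    cond (Nat.ble a b) x y = if a ≤ b then x else y := by
  cases hb : Nat.ble a b
  · have : ¬ a ≤ b := fun h => by
      rw [Nat.ble_eq.mpr h] at hb
      exact Bool.noConfusion hb
    rw [if_neg this]; rfl
  · have : a ≤ b := Nat.ble_eq.mp hb
    rw [if_pos this]; rfl

theorem cond_beq {α : Type} (a b : ℕ) (x y : α) :
    cond (Nat.beq a b) x y = if a = b then x else y := by
  cases hb : Nat.beq a b
  · have : ¬ a = b := fun h => by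
      subst h
      rw [Nat.beq_refl] at hb
      exact Bool.noConfusion hb
    rw [if_neg this]; rfl
  · have : a = b := Nat.eq_of_beq_eq_true hb
    rw [if_pos this]; rfl

theorem zL_ge (D : N.Tab) (h1 : 100 ≤ D.I.kz) (h2 : D.I.kz ≤ 736) : 2 ^ 20 + 1 ≤ N.zL D := by
  unfold N.zL N.xgN
  generalize D.I.kz = k at *
  rw [cond_ble, cond_ble, cond_ble]
  split_ifs with g1 g2 g3
  · show 2 ^ 20 + 1 ≤ k <<< 17
    rw [Nat.shiftLeft_eq]; omega
  · exact le_trans (by norm_num) (Nat.le_add_right _ _)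
  · exact le_trans (by norm_num) (Nat.le_add_right _ _)
  · exact le_trans (by norm_num) (Nat.le_add_right _ _)

/-- one step of `kSum` -/
theorem kSum_succ (D : N.Tab) (n md a1 a2 b1 b2 R0 R1 Q k : ℕ) :
    N.kSum D n md a1 a2 b1 b2 R0 R1 Q (k + 1) =
      if N.mulU a2 (N.xiN md (k + 1) * N.xiN md (k + 1)) ≤ N.zL D then
        N.addS (N.kSum D n md a1 a2 b1 b2 R0 R1 Q k)
          (N.kPos D n a1 a2 b1 (N.xiN md k) (N.xiN md (k + 1)) (N.mulU a2 (N.xiN md (k + 1) * N.xiN md (k + 1))))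
      else N.kSum D n md a1 a2 b1 b2 R0 R1 Q k -
          N.kNeg D (n - 2) a1 a2 b1 b2 R0 R1 Q (N.xiN md k) (N.xiN md (k + 1))
            (N.mulU a2 (N.xiN md (k + 1) * N.xiN md (k + 1))) := by
  rw [← cond_ble]
  have h : N.kSum D n md a1 a2 b1 b2 R0 R1 Q (k + 1) =
    N.frc (N.xiN md k) (fun m0 => N.frc (N.xiN md (Nat.succ k)) (fun m1 =>
    N.frc (N.mulU a2 (Nat.mul m1 m1)) (fun x2 =>
    cond (Nat.ble x2 (N.zL D))
      (N.addS (N.kSum D n md a1 a2 b1 b2 R0 R1 Q k) (N.kPos D n a1 a2 b1 m0 m1 x2))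
      (Nat.sub (N.kSum D n md a1 a2 b1 b2 R0 R1 Q k)
        (N.kNeg D (Nat.sub n 2) a1 a2 b1 b2 R0 R1 Q m0 m1 x2))))) := rfl
  rw [h, frc_eq, frc_eq, frc_eq]
  rfl

theorem kTail_zero (D : N.Tab) (n a1 a2 b1 b2 : ℕ) : N.kTail D n a1 a2 b1 b2 0 = 2 ^ 60 := by
  unfold N.kTail
  simp only [frc_eq]
  have h : N.mulL a1 (Nat.mul 0 0) = 0 := by
    unfold N.mulL
    simp
  rw [h]
  have h2 : Nat.ble 4294967296 0 = false := rfl
  rw [h2]
  simp only [cond_false]
  norm_num

theorem kOK_iff {D : N.Tab} {n md a1 a2 b1 b2 t0 Kn : ℕ} (h : N.kOK D n md a1 a2 b1 b2 t0 Kn = true) :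
    b1 < a2 ∧ N.kTail D n a1 a2 b1 b2 (N.xiN md Kn) < 2 ^ 60 ∧
    2 ^ 60 + 1 + N.kTail D n a1 a2 b1 b2 (N.xiN md Kn) ≤
      N.kSum D n md a1 a2 b1 b2 (N.oneA - (a2 + b2)) (N.oneA - (a1 + b1)) ((N.oneA - a1) * t0 - b1 * b1) Kn := by
  unfold N.kOK at h
  rw [cond_ble] at h
  split_ifs at h with h1
  rw [frc_eq, cond_ble] at h
  split_ifs at h with h2
  have h3 := Nat.ble_eq.mp h
  refine ⟨not_le.mp h1, not_le.mp h2, ?_⟩
  exact h3

theorem gKOK (hE : GEXP) (hPw : GPOW) (hRS : GRST) (hT2 : GKTAIL2) : GKOK := by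
  intro hXI hKP hKN hKT D θ z hTF n c md Kn t i j a1 a2 b1 b2 t0 hc hn hS hji hl ha1 ha12 ha2 hta1 hta2
    htb1 htb2 hQ hok
  obtain ⟨hb1, hT, hsum⟩ := kOK_iff hok
  have hd0 : 0 < t i - t j := sub_pos.mpr hji
  have hx0 : ∀ k, N.xiN md 0 = 0 := fun k => (hXI md k).1
  have hxs : ∀ k, N.xiN md k < N.xiN md (k + 1) := fun k => (hXI md k).2
  have hzL := zL_ge D hTF.i1.1 hTF.i1.2.1
  -- invariant
  have inv : ∀ k : ℕ, IntervalIntegrable (KI θ t i j) volume 0 ((N.xiN md k : ℝ) / 8) ∧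
      (N.kSum D c md a1 a2 b1 b2 (N.oneA - (a2 + b2)) (N.oneA - (a1 + b1)) ((N.oneA - a1) * t0 - b1 * b1) k = 0 ∨
      (t i - t j) * (N.kSum D c md a1 a2 b1 b2 (N.oneA - (a2 + b2)) (N.oneA - (a1 + b1))
        ((N.oneA - a1) * t0 - b1 * b1) k : ℝ) ≤
        (t i - t j) * 2 ^ 60 + 2 ^ 40 * ∫ ξ in (0 : ℝ)..((N.xiN md k : ℝ) / 8), KI θ t i j ξ) := by
    intro k
    induction k with
    | zero =>
      rw [hx0 0]
      simp only [Nat.cast_zero, zero_div]
      refine ⟨IntervalIntegrable.refl, Or.inr ?_⟩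
      rw [intervalIntegral.integral_same]
      have : N.kSum D c md a1 a2 b1 b2 (N.oneA - (a2 + b2)) (N.oneA - (a1 + b1))
        ((N.oneA - a1) * t0 - b1 * b1) 0 = 2 ^ 60 := rfl
      rw [this]
      push_cast
      linarith
    | succ k ih =>
      obtain ⟨hi, hk⟩ := ih
      rw [kSum_succ]
      by_cases hz : N.mulU a2 (N.xiN md (k + 1) * N.xiN md (k + 1)) ≤ N.zL D
      · obtain ⟨hi2, hb⟩ := hKP hE D θ z hTF n c t i j a1 a2 b1 (N.xiN md k) (N.xiN md (k + 1)) hc hS hji hl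
          hta1 hta2 htb1 hb1 ha2 (hxs k) hz
        refine ⟨hi.trans hi2, ?_⟩
        rw [if_pos hz]
        rw [← intervalIntegral.integral_add_adjacent_intervals hi hi2]
        generalize N.kPos D c a1 a2 b1 (N.xiN md k) (N.xiN md (k + 1))
          (N.mulU a2 (N.xiN md (k + 1) * N.xiN md (k + 1))) = P at *
        generalize N.kSum D c md a1 a2 b1 b2 (N.oneA - (a2 + b2)) (N.oneA - (a1 + b1))
          ((N.oneA - a1) * t0 - b1 * b1) k = S at *
        unfold N.addS
        rw [cond_beq]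
        split_ifs with hS0
        · exact Or.inl rfl
        · right
          rcases hk with hk | hk
          · exact absurd hk hS0
          · have hb' : (t i - t j) * (P : ℝ) ≤
                2 ^ 40 * ∫ ξ in ((N.xiN md k : ℝ) / 8)..((N.xiN md (k + 1) : ℝ) / 8), KI θ t i j ξ := by
              unfold vR at hb
              have := mul_le_mul_of_nonneg_left hb (by norm_num : (0 : ℝ) ≤ 2 ^ 40)
              calc (t i - t j) * (P : ℝ) = 2 ^ 40 * ((t i - t j) * ((P : ℝ) / 2 ^ 40)) := by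
                    field_simp
                _ ≤ _ := this
            have hcast : ((Nat.add S P : ℕ) : ℝ) = (S : ℝ) + P := by
              show ((S + P : ℕ) : ℝ) = _
              push_cast
              ring
            rw [hcast]
            nlinarith [hk, hb']
      · have hm0 : 0 < N.xiN md k := by
          rcases Nat.eq_zero_or_pos k with h0 | h0
          · exfalso
            subst h0
            apply hz
            have h1 : N.xiN md (0 + 1) = 1 := by
              unfold N.xiN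
              rw [cond_beq]
              split_ifs <;> rfl
            rw [h1]
            have : N.mulU a2 (1 * 1) ≤ 2 ^ 20 + 1 := by
              unfold N.mulU
              show (a2 * (1 * 1) + 63) >>> 6 ≤ _
              rw [Nat.shiftRight_eq_div_pow]
              omega
            exact this.trans hzL
          · obtain ⟨k', rfl⟩ := Nat.exists_eq_add_one.mpr h0
            exact lt_of_le_of_lt (Nat.zero_le _) (hxs k')
        obtain ⟨hi2, hb⟩ := hKN hRS D θ z hTF n c t i j a1 a2 b1 b2 t0 (N.xiN md k) (N.xiN md (k + 1))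
          (hc.imp id (fun h => ⟨h, hn⟩)) hS hji hl (by omega) hta1 hta2 htb1 htb2 ha12 ha2 hQ hm0 (hxs k)
          (not_le.mp hz)
        refine ⟨hi.trans hi2, ?_⟩
        rw [if_neg hz]
        rw [← intervalIntegral.integral_add_adjacent_intervals hi hi2]
        generalize N.kNeg D (c - 2) a1 a2 b1 b2 (N.oneA - (a2 + b2)) (N.oneA - (a1 + b1))
          ((N.oneA - a1) * t0 - b1 * b1) (N.xiN md k) (N.xiN md (k + 1))
          (N.mulU a2 (N.xiN md (k + 1) * N.xiN md (k + 1))) = P at *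
        generalize N.kSum D c md a1 a2 b1 b2 (N.oneA - (a2 + b2)) (N.oneA - (a1 + b1))
          ((N.oneA - a1) * t0 - b1 * b1) k = S at *
        by_cases hSP : S ≤ P
        · left
          exact Nat.sub_eq_zero_of_le hSP
        · right
          rcases hk with hk | hk
          · exfalso
            subst hk
            exact hSP (Nat.zero_le _)
          · have hb' : -(2 ^ 40 * ∫ ξ in ((N.xiN md k : ℝ) / 8)..((N.xiN md (k + 1) : ℝ) / 8), KI θ t i j ξ) ≤
                (t i - t j) * (P : ℝ) := by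
              unfold vR at hb
              have h2 := mul_le_mul_of_nonneg_left hb (by norm_num : (0 : ℝ) ≤ 2 ^ 40)
              have h3 : (2 : ℝ) ^ 40 * -((t i - t j) * ((P : ℝ) / 2 ^ 40)) = -((t i - t j) * (P : ℝ)) := by
                field_simp
              rw [h3] at h2
              linarith
            rw [Nat.cast_sub (le_of_lt (not_le.mp hSP))]
            nlinarith [hk, hb']
  obtain ⟨hi, hk⟩ := inv Kn
  have hmK : 0 < N.xiN md Kn := by
    rcases Nat.eq_zero_or_pos (N.xiN md Kn) with h0 | h0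
    · exfalso
      rw [h0, kTail_zero] at hT
      exact lt_irrefl _ hT
    · exact h0
  obtain ⟨hi3, hb3⟩ := hKT hE hPw hT2 D θ z hTF n c t i j a1 a2 b1 b2 (N.xiN md Kn) hc hS hji hl ha1 hta1 hta2
    htb1 htb2 ha2 hmK hT
  have hM : (0 : ℝ) ≤ (N.xiN md Kn : ℝ) / 8 := by positivity
  have hi0 : IntegrableOn (KI θ t i j) (Ioc 0 ((N.xiN md Kn : ℝ) / 8)) volume :=
    (intervalIntegrable_iff_integrableOn_Ioc_of_le hM).mp hi
  have hi4 : IntegrableOn (KI θ t i j) (Ioi 0) volume := by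
    rw [← Ioc_union_Ioi_eq_Ioi hM]
    exact hi0.union hi3
  have hK : K θ t i j = (∫ ξ in (0 : ℝ)..((N.xiN md Kn : ℝ) / 8), KI θ t i j ξ) +
      ∫ ξ in Ioi ((N.xiN md Kn : ℝ) / 8), KI θ t i j ξ := by
    rw [intervalIntegral.integral_interval_add_Ioi hi4 hi3]
    rfl
  rw [hK]
  generalize N.kTail D c a1 a2 b1 b2 (N.xiN md Kn) = T at *
  generalize N.kSum D c md a1 a2 b1 b2 (N.oneA - (a2 + b2)) (N.oneA - (a1 + b1))
          ((N.oneA - a1) * t0 - b1 * b1) Kn = S at *
  rcases hk with hk | hk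
  · omega
  · have hsR : (2 : ℝ) ^ 60 + 1 + T ≤ (S : ℝ) := by exact_mod_cast hsum
    have h1 : (t i - t j) * (2 ^ 60 + 1 + (T : ℝ)) ≤ (t i - t j) * (S : ℝ) :=
      mul_le_mul_of_nonneg_left hsR hd0.le
    unfold vR at hb3
    have h2 := mul_le_mul_of_nonneg_left hb3 (by norm_num : (0 : ℝ) ≤ 2 ^ 40)
    have h3 : (2 : ℝ) ^ 40 * -((t i - t j) * ((T : ℝ) / 2 ^ 40)) = -((t i - t j) * (T : ℝ)) := by
      field_simp
    rw [h3] at h2
    nlinarith [h1, h2, hk, hd0]

end Pool.Agent.Helper82.PT
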